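import Mathlib

/-!
# Exchanging a bottom ascent and a bottom descent with a tolerance

`L π i j` says that the cell in column (position) `i` and row (value) `j` lies below the dominating
part of the pattern. The number of permutations without descents `π i' < π i`, `i + a < i'`,
`L π i' (π i)` is at most the number of permutations without ascents `π i < π i'`, `i + a < i'`,
`L π i' (π i')`; under a further condition on `L` the two numbers are equal.
-/

set_option autoImplicit false

namespace Pool.Agent.Q293.DP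

open Equiv

/-- cyclic shift of the elements of `V`: every element goes to the next larger one, the largest one
to the smallest one -/
lemma exists_shift {n : ℕ} (V : Finset (Fin n)) : ∃ κ : Perm (Fin n),
    (∀ v, v ∉ V → κ v = v) ∧ (∀ v ∈ V, κ v ∈ V) ∧
    (∀ c ∈ V, (∀ v ∈ V, v ≤ c) → ∀ v ∈ V, κ c ≤ v) ∧
    (∀ v ∈ V, ∀ c ∈ V, v < c → v < κ v ∧ ∀ u ∈ V, v < u → κ v ≤ u) := by
  classical
  obtain ⟨m, hm⟩ : ∃ m, V.card = m := ⟨_, rfl⟩
  let e := V.orderIsoOfFin hm
  cases m with
  | zero =>
    refine ⟨1, fun v _ => rfl, ?_, ?_, ?_⟩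
    · intro v hv
      rw [Finset.card_eq_zero.1 hm] at hv
      simp at hv
    · intro c hc
      rw [Finset.card_eq_zero.1 hm] at hc
      simp at hc
    · intro v hv
      rw [Finset.card_eq_zero.1 hm] at hv
      simp at hv
  | succ m =>
    let κ : Perm (Fin n) := (finRotate (m + 1)).extendDomain e.toEquiv
    have hk : ∀ i : Fin (m + 1), κ (e i) = e (i + 1) := by
      intro i
      have := Equiv.Perm.extendDomain_apply_image (finRotate (m + 1)) e.toEquiv i
      simpa [finRotate_apply] using this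
    have hsurj : ∀ v ∈ V, ∃ i : Fin (m + 1), (e i : Fin n) = v := by
      intro v hv
      exact ⟨e.symm ⟨v, hv⟩, by simp⟩
    refine ⟨κ, ?_, ?_, ?_, ?_⟩
    · intro v hv
      exact Equiv.Perm.extendDomain_apply_not_subtype _ _ hv
    · intro v hv
      obtain ⟨i, rfl⟩ := hsurj v hv
      rw [hk]
      exact (e (i + 1)).2
    · intro c hc hmax v hv
      obtain ⟨i, rfl⟩ := hsurj c hc
      obtain ⟨j, rfl⟩ := hsurj v hv
      have hi : i = Fin.last m := by
        have h1 := hmax _ (e (Fin.last m)).2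
        have h2 : Fin.last m ≤ i := e.le_iff_le.1 h1
        exact le_antisymm (Fin.le_last _) h2
      rw [hk, hi, Fin.last_add_one]
      exact e.monotone (Fin.zero_le j)
    · intro v hv c hc hvc
      obtain ⟨i, rfl⟩ := hsurj v hv
      obtain ⟨j, rfl⟩ := hsurj c hc
      have hij : i < j := e.lt_iff_lt.1 hvc
      have hi : i < i + 1 := by
        rw [Fin.lt_add_one_iff]
        exact lt_of_lt_of_le hij (Fin.le_last _)
      rw [hk]
      refine ⟨e.lt_iff_lt.2 hi, ?_⟩
      intro u hu hvu
      obtain ⟨l, rfl⟩ := hsurj u hu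
      have hil : i < l := e.lt_iff_lt.1 hvu
      exact e.monotone (Fin.add_one_le_of_lt hil)

/-- the shift -/
noncomputable def shift {n : ℕ} (V : Finset (Fin n)) : Perm (Fin n) := (exists_shift V).choose

section

variable {n : ℕ}

/-- the two properties of the domination relation -/
structure Good (L : Perm (Fin n) → Fin n → Fin n → Prop) : Prop where
  down : ∀ π i j i' j', L π i j → i' ≤ i → j' ≤ j → L π i' j'
  inv : ∀ π π' : Perm (Fin n), (∀ p, π' p ≠ π p → L π p (π p) ∧ L π p (π' p)) →
    ∀ i j, L π' i j ↔ L π i j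

/-- no ascent with top value `v` below the dominating part -/
def C12 (L : Perm (Fin n) → Fin n → Fin n → Prop) (a : ℕ) (π : Perm (Fin n)) (v : Fin n) : Prop :=
  ∀ i i' : Fin n, (i : ℕ) + a < i' → π i' = v → π i < v → ¬ L π i' v

/-- no descent with top value `v` below the dominating part -/
def C21 (L : Perm (Fin n) → Fin n → Fin n → Prop) (a : ℕ) (π : Perm (Fin n)) (v : Fin n) : Prop :=
  ∀ i i' : Fin n, (i : ℕ) + a < i' → π i = v → π i' < v → ¬ L π i' v

/-- ascents are forbidden for top values below `c`, descents for the other top values -/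
def H (L : Perm (Fin n) → Fin n → Fin n → Prop) (a c : ℕ) (π : Perm (Fin n)) : Prop :=
  (∀ v : Fin n, (v : ℕ) < c → C12 L a π v) ∧ (∀ v : Fin n, c ≤ (v : ℕ) → C21 L a π v)

open Classical in
/-- the values which are shifted -/
noncomputable def V (L : Perm (Fin n) → Fin n → Fin n → Prop) (c : Fin n) (π : Perm (Fin n)) :
    Finset (Fin n) :=
  Finset.univ.filter (fun v => L π (π.symm c) c ∧ v ≤ c ∧ L π (π.symm v) c ∧
    ∀ u, v < u → u ≤ c → L π (π.symm u) u → L π (π.symm u) c)

lemma mem_V {L : Perm (Fin n) → Fin n → Fin n → Prop} {c : Fin n} {π : Perm (Fin n)} {v : Fin n} :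
    v ∈ V L c π ↔ L π (π.symm c) c ∧ v ≤ c ∧ L π (π.symm v) c ∧
    ∀ u, v < u → u ≤ c → L π (π.symm u) u → L π (π.symm u) c := by
  simp [V]

/-- the map -/
noncomputable def Phi (L : Perm (Fin n) → Fin n → Fin n → Prop) (c : Fin n) (π : Perm (Fin n)) :
    Perm (Fin n) := shift (V L c π) * π

lemma Phi_apply (L : Perm (Fin n) → Fin n → Fin n → Prop) (c : Fin n) (π : Perm (Fin n))
    (p : Fin n) : Phi L c π p = shift (V L c π) (π p) := rfl

variable {L : Perm (Fin n) → Fin n → Fin n → Prop}

lemma shift_off (W : Finset (Fin n)) : ∀ v, v ∉ W → shift W v = v :=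
  (exists_shift W).choose_spec.1

lemma shift_mem (W : Finset (Fin n)) : ∀ v ∈ W, shift W v ∈ W :=
  (exists_shift W).choose_spec.2.1

lemma shift_max (W : Finset (Fin n)) : ∀ c ∈ W, (∀ v ∈ W, v ≤ c) → ∀ v ∈ W, shift W c ≤ v :=
  (exists_shift W).choose_spec.2.2.1

lemma shift_lt (W : Finset (Fin n)) : ∀ v ∈ W, ∀ c ∈ W, v < c →
    v < shift W v ∧ ∀ u ∈ W, v < u → shift W v ≤ u :=
  (exists_shift W).choose_spec.2.2.2

lemma shift_mem_iff (W : Finset (Fin n)) (v : Fin n) : shift W v ∈ W ↔ v ∈ W := by
  constructor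
  · intro h
    by_contra hv
    rw [shift_off W v hv] at h
    exact hv h
  · exact shift_mem W v

lemma L_Phi (hL : Good L) (c : Fin n) (π : Perm (Fin n)) (i j : Fin n) :
    L (Phi L c π) i j ↔ L π i j := by
  apply hL.inv
  intro p hp
  rw [Phi_apply] at hp ⊢
  have h1 : π p ∈ V L c π := by
    by_contra h
    exact hp (shift_off _ _ h)
  have h2 := shift_mem _ _ h1
  obtain ⟨_, h3, h4, _⟩ := mem_V.1 h1
  obtain ⟨_, h5, _, _⟩ := mem_V.1 h2
  rw [Equiv.symm_apply_apply] at h4
  exact ⟨hL.down _ _ _ _ _ h4 le_rfl h3, hL.down _ _ _ _ _ h4 le_rfl h5⟩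

lemma Phi_symm_mem (c : Fin n) (π : Perm (Fin n)) (u : Fin n) (hu : u ∈ V L c π) :
    π ((Phi L c π).symm u) ∈ V L c π := by
  have h : shift (V L c π) (π ((Phi L c π).symm u)) = u := by
    rw [← Phi_apply]; simp
  rw [← shift_mem_iff, h]
  exact hu

lemma Phi_symm_not_mem (c : Fin n) (π : Perm (Fin n)) (u : Fin n) (hu : u ∉ V L c π) :
    (Phi L c π).symm u = π.symm u := by
  rw [Equiv.symm_apply_eq, Phi_apply, Equiv.apply_symm_apply, shift_off _ _ hu]

lemma P_iff (hL : Good L) (c : Fin n) (π : Perm (Fin n)) (u : Fin n) :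
    L (Phi L c π) ((Phi L c π).symm u) c ↔ L π (π.symm u) c := by
  rw [L_Phi hL]
  by_cases hu : u ∈ V L c π
  · have h1 := (mem_V.1 hu).2.2.1
    have h2 := (mem_V.1 (Phi_symm_mem c π u hu)).2.2.1
    rw [Equiv.symm_apply_apply] at h2
    exact ⟨fun _ => h1, fun _ => h2⟩
  · rw [Phi_symm_not_mem c π u hu]

lemma B_iff (hL : Good L) (c : Fin n) (π : Perm (Fin n)) (u : Fin n) :
    (L (Phi L c π) ((Phi L c π).symm u) u → L (Phi L c π) ((Phi L c π).symm u) c) ↔
      (L π (π.symm u) u → L π (π.symm u) c) := by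
  by_cases hu : u ∈ V L c π
  · have h1 := (mem_V.1 hu).2.2.1
    have h2 := (P_iff hL c π u).2 h1
    exact ⟨fun _ _ => h1, fun _ _ => h2⟩
  · rw [P_iff hL, L_Phi hL, Phi_symm_not_mem c π u hu]

lemma V_Phi (hL : Good L) (c : Fin n) (π : Perm (Fin n)) : V L c (Phi L c π) = V L c π := by
  ext v
  rw [mem_V, mem_V, P_iff hL, P_iff hL]
  simp only [B_iff hL]

lemma Phi_injective (hL : Good L) (c : Fin n) : Function.Injective (Phi L c) := by
  intro π π' h
  have h1 : V L c π = V L c π' := by
    rw [← V_Phi hL c π, ← V_Phi hL c π', h]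
  have h2 : shift (V L c π) * π = shift (V L c π') * π' := h
  rw [h1] at h2
  exact mul_left_cancel h2

lemma c_mem {c : Fin n} {π : Perm (Fin n)} (h : L π (π.symm c) c) : c ∈ V L c π := by
  rw [mem_V]
  exact ⟨h, le_rfl, h, fun u h1 h2 => absurd h1 (not_lt.2 h2)⟩

lemma le_c {c : Fin n} {π : Perm (Fin n)} {v : Fin n} (h : v ∈ V L c π) : v ≤ c :=
  (mem_V.1 h).2.1

/-- a value which is not shifted has a witness -/
lemma not_mem {c : Fin n} {π : Perm (Fin n)} {v : Fin n} (hc : L π (π.symm c) c)
    (hv : v ∉ V L c π) (hvc : v ≤ c) (hP : L π (π.symm v) c) :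
    ∃ u, v < u ∧ u ≤ c ∧ L π (π.symm u) u ∧ ¬ L π (π.symm u) c := by
  by_contra hcon
  push Not at hcon
  exact hv (mem_V.2 ⟨hc, hvc, hP, hcon⟩)

/-- values above `c` are not affected -/
lemma C21_above (hL : Good L) {a : ℕ} {c : Fin n} {π : Perm (Fin n)} {v : Fin n} (hv : c < v) :
    C21 L a (Phi L c π) v ↔ C21 L a π v := by
  have e1 : ∀ i, Phi L c π i = v ↔ π i = v := by
    intro i
    rw [Phi_apply]
    constructor
    · intro h
      have : π i ∉ V L c π := by
        intro hm
        have := le_c (shift_mem _ _ hm)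
        rw [h] at this
        exact absurd hv (not_lt.2 this)
      rw [shift_off _ _ this] at h
      exact h
    · intro h
      have : π i ∉ V L c π := by
        intro hm
        have := le_c hm
        rw [h] at this
        exact absurd hv (not_lt.2 this)
      rw [shift_off _ _ this]
      exact h
  have e2 : ∀ i, Phi L c π i < v ↔ π i < v := by
    intro i
    rw [Phi_apply]
    by_cases hm : π i ∈ V L c π
    · exact ⟨fun _ => (le_c hm).trans_lt hv, fun _ => (le_c (shift_mem _ _ hm)).trans_lt hv⟩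
    · rw [shift_off _ _ hm]
  simp only [C21, e1, e2, L_Phi hL]

lemma forward (hL : Good L) {a : ℕ} {c : Fin n} {π : Perm (Fin n)} (h : H L a c π) :
    H L a ((c : ℕ) + 1) (Phi L c π) := by
  obtain ⟨h12, h21⟩ := h
  refine ⟨?_, fun v hv => (C21_above hL (Fin.lt_def.2 hv)).2 (h21 v (by omega))⟩
  intro v hv i i' hii hv' hi hLv
  rw [L_Phi hL] at hLv
  rw [Phi_apply] at hv' hi
  have hvc : v ≤ c := Fin.le_def.2 (by omega)
  by_cases hc : L π (π.symm c) c
  swap
  · -- nothing is shifted
    have hV : ∀ u, u ∉ V L c π := fun u hu => hc (mem_V.1 hu).1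
    rw [shift_off _ _ (hV _)] at hv' hi
    rcases eq_or_lt_of_le hvc with rfl | hlt
    · apply hc
      rw [← hv', Equiv.symm_apply_apply, hv']
      exact hLv
    · exact h12 v (Fin.lt_def.1 hlt) i i' hii hv' hi hLv
  have hcV := c_mem hc
  have hmax : ∀ u ∈ V L c π, u ≤ c := fun u hu => le_c hu
  have hile : i ≤ i' := Fin.le_def.2 (by omega)
  by_cases hx : π i' ∈ V L c π
  · have hLx : L π i' c := by
      have := (mem_V.1 hx).2.2.1
      rwa [Equiv.symm_apply_apply] at this
    have hLi : L π i c := hL.down _ _ _ _ _ hLx hile le_rfl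
    rcases eq_or_lt_of_le (le_c hx) with hxc | hxc
    · -- `i'` is the position of `c`
      have hmin : ∀ u ∈ V L c π, v ≤ u := by
        intro u hu
        rw [← hv', hxc]
        exact shift_max _ c hcV hmax u hu
      have hy : π i ∉ V L c π := by
        intro hm
        have := hmin _ (shift_mem _ _ hm)
        exact absurd hi (not_lt.2 this)
      rw [shift_off _ _ hy] at hi
      obtain ⟨u, hu1, hu2, hu3, hu4⟩ := not_mem hc hy (hi.le.trans hvc)
        (by rw [Equiv.symm_apply_apply]; exact hLi)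
      have hf : i' < π.symm u := by
        by_contra hle
        exact hu4 (hL.down _ _ _ _ _ hLx (not_lt.1 hle) le_rfl)
      have huc : u < c := by
        rcases eq_or_lt_of_le hu2 with h | h
        · rw [h] at hu4
          exact absurd hc hu4
        · exact h
      exact h12 u (Fin.lt_def.1 huc) i (π.symm u) (hii.trans (Fin.lt_def.1 hf)) (by simp) hu1 hu3
    · obtain ⟨hs1, hs2⟩ := shift_lt _ _ hx c hcV hxc
      have hno : ∀ y : Fin n, π i = y → π i' < y → y ∈ V L c π ∨ ¬ y ≤ c := by
        intro y hy hxy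
        by_contra hcon
        push Not at hcon
        obtain ⟨u, hu1, hu2, hu3, hu4⟩ := not_mem hc hcon.1 hcon.2
          (by rw [← hy, Equiv.symm_apply_apply]; exact hLi)
        exact hu4 ((mem_V.1 hx).2.2.2 u (hxy.trans hu1) hu2 hu3)
      have hLi'x : L π i' (π i') := hL.down _ _ _ _ _ hLx le_rfl hxc.le
      have hlow : ¬ π i < π i' := fun hlt =>
        h12 (π i') (Fin.lt_def.1 hxc) i i' hii rfl hlt hLi'x
      have hne : π i ≠ π i' := by
        intro he
        have := π.injective he
        rw [this] at hii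
        omega
      have hgt : π i' < π i := lt_of_le_of_ne (not_lt.1 hlow) hne.symm
      by_cases hy : π i ∈ V L c π
      · rcases eq_or_lt_of_le (le_c hy) with hyc | hyc
        · exact h21 c le_rfl i i' hii hyc hxc hLx
        · have k1 := hs2 _ hy hgt
          have k2 := (shift_lt _ _ hy c hcV hyc).1
          rw [hv'] at k1
          exact absurd (hi.trans_le k1) (not_lt.2 k2.le)
      · rw [shift_off _ _ hy] at hi
        rcases hno _ rfl hgt with h | h
        · exact hy h
        · exact h (hi.le.trans hvc)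
  · rw [shift_off _ _ hx] at hv'
    have hvV : v ∉ V L c π := hv' ▸ hx
    have hvc' : v < c := lt_of_le_of_ne hvc (fun h => hvV (h ▸ hcV))
    have hsym : π.symm v = i' := by rw [← hv', Equiv.symm_apply_apply]
    -- all shifted values are above `v`
    have hall : ∀ u ∈ V L c π, v < u := by
      by_cases hP : L π i' c
      · obtain ⟨u, hu1, hu2, hu3, hu4⟩ := not_mem hc hvV hvc (by rw [hsym]; exact hP)
        intro w hw
        by_contra hle
        exact hu4 ((mem_V.1 hw).2.2.2 u (lt_of_le_of_lt (not_lt.1 hle) hu1) hu2 hu3)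
      · intro w hw
        by_contra hle
        rcases eq_or_lt_of_le (not_lt.1 hle) with h | h
        · exact hvV (h ▸ hw)
        · have := (mem_V.1 hw).2.2.2 v h hvc (by rw [hsym]; exact hLv)
          rw [hsym] at this
          exact hP this
    have hy : π i ∉ V L c π := by
      intro hm
      have := hall _ (shift_mem _ _ hm)
      exact absurd hi (not_lt.2 this.le)
    rw [shift_off _ _ hy] at hi
    exact h12 v (Fin.lt_def.1 hvc') i i' hii hv' hi hLv

/-- the condition for equality -/
def Tight (L : Perm (Fin n) → Fin n → Fin n → Prop) (a : ℕ) : Prop :=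
  ∀ (π : Perm (Fin n)) (i i' : Fin n), i < i' → (i' : ℕ) ≤ i + a → L π i' (π i') →
    ∀ j, L π i j → L π i' j

lemma backward (hL : Good L) {a : ℕ} (hE : Tight L a) {c : Fin n} {π : Perm (Fin n)}
    (h : H L a ((c : ℕ) + 1) (Phi L c π)) : H L a c π := by
  obtain ⟨h12, h21⟩ := h
  have key : ∀ i i' : Fin n, (i : ℕ) + a < i' → ∀ v : Fin n, v ≤ c →
      shift (V L c π) (π i') = v → shift (V L c π) (π i) < v → ¬ L π i' v := by
    intro i i' hii v hv h1 h2 h3
    exact h12 v (Nat.lt_succ_of_le (Fin.le_def.1 hv)) i i' hii h1 h2 ((L_Phi hL c π i' v).2 h3)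
  have hmax : ∀ u ∈ V L c π, u ≤ c := fun u hu => le_c hu
  refine ⟨?_, ?_⟩
  · intro v hv i i' hii hv' hi hLv
    have hvc : v < c := Fin.lt_def.2 hv
    by_cases hc : L π (π.symm c) c
    swap
    · have hV : ∀ u, u ∉ V L c π := fun u hu => hc (mem_V.1 hu).1
      exact key i i' hii v hvc.le (by rw [shift_off _ _ (hV _)]; exact hv')
        (by rw [shift_off _ _ (hV _)]; exact hi) hLv
    have hcV := c_mem hc
    have hsym : π.symm v = i' := by rw [← hv', Equiv.symm_apply_apply]
    by_cases hvV : v ∈ V L c π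
    · obtain ⟨hs1, hs2⟩ := shift_lt _ _ hvV c hcV hvc
      have hLc : L π i' c := by
        have := (mem_V.1 hvV).2.2.1
        rwa [hsym] at this
      have hle : shift (V L c π) v ≤ c := hs2 c hcV hvc
      refine key i i' hii _ hle (by rw [hv']) ?_ (hL.down _ _ _ _ _ hLc le_rfl hle)
      by_cases hy : π i ∈ V L c π
      · exact ((shift_lt _ _ hy v hvV hi).2 v hvV hi).trans_lt hs1
      · rw [shift_off _ _ hy]
        exact hi.trans hs1
    · by_cases hy : π i ∈ V L c π
      · have hno := (mem_V.1 hy).2.2.2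
        apply hvV
        rw [mem_V]
        refine ⟨hc, hvc.le, ?_, fun u hu1 hu2 hu3 => hno u (hi.trans hu1) hu2 hu3⟩
        exact hno v hi hvc.le (by rw [hsym]; exact hLv)
      · exact key i i' hii v hvc.le (by rw [hv', shift_off _ _ hvV])
          (by rw [shift_off _ _ hy]; exact hi) hLv
  · intro v hv
    rcases eq_or_lt_of_le (show c ≤ v from Fin.le_def.2 hv) with rfl | hlt
    swap
    · exact (C21_above hL hlt).1 (h21 v (Nat.succ_le_of_lt (Fin.lt_def.1 hlt)))
    intro i i' hii hi hi' hLc
    have hile : i ≤ i' := Fin.le_def.2 (by omega)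
    have hc : L π (π.symm c) c := by
      rw [← hi, Equiv.symm_apply_apply, hi]
      exact hL.down _ _ _ _ _ hLc hile le_rfl
    have hcV := c_mem hc
    by_cases hx : π i' ∈ V L c π
    · obtain ⟨hs1, hs2⟩ := shift_lt _ _ hx c hcV hi'
      have hle : shift (V L c π) (π i') ≤ c := hs2 c hcV hi'
      refine key i i' hii _ hle rfl ?_ (hL.down _ _ _ _ _ hLc le_rfl hle)
      rw [hi]
      exact (shift_max _ c hcV hmax _ hx).trans_lt hs1
    · obtain ⟨u, hu1, hu2, hu3, hu4⟩ := not_mem hc hx hi'.le
        (by rw [Equiv.symm_apply_apply]; exact hLc)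
      have hf : i' < π.symm u := by
        by_contra hle
        exact hu4 (hL.down _ _ _ _ _ hLc (not_lt.1 hle) le_rfl)
      have huV : u ∉ V L c π := fun hm => hu4 (mem_V.1 hm).2.2.1
      by_cases hgap : (i' : ℕ) + a < π.symm u
      · exact key i' (π.symm u) hgap u hu2 (by rw [Equiv.apply_symm_apply, shift_off _ _ huV])
          (by rw [shift_off _ _ hx]; exact hu1) hu3
      · exact hu4 (hE π i' (π.symm u) hf (not_lt.1 hgap)
          (by rw [Equiv.apply_symm_apply]; exact hu3) c hLc)

open Classical in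
lemma step_le (hL : Good L) (a : ℕ) (c : Fin n) :
    (Finset.univ.filter (H L a c)).card ≤ (Finset.univ.filter (H L a ((c : ℕ) + 1))).card := by
  apply Finset.card_le_card_of_injOn (Phi L c)
  · intro π hπ
    simp only [Finset.coe_filter, Finset.mem_univ, true_and, Set.mem_ofPred_eq] at hπ ⊢
    exact forward hL hπ
  · exact (Phi_injective hL c).injOn

open Classical in
lemma step_eq (hL : Good L) {a : ℕ} (hE : Tight L a) (c : Fin n) :
    (Finset.univ.filter (H L a c)).card = (Finset.univ.filter (H L a ((c : ℕ) + 1))).card := by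
  apply le_antisymm (step_le hL a c)
  have hbij : Function.Bijective (Phi L c) := Finite.injective_iff_bijective.1 (Phi_injective hL c)
  let e : Perm (Fin n) ≃ Perm (Fin n) := Equiv.ofBijective _ hbij
  apply Finset.card_le_card_of_injOn e.symm
  · intro π hπ
    simp only [Finset.coe_filter, Finset.mem_univ, true_and, Set.mem_ofPred_eq] at hπ ⊢
    apply backward hL hE
    have : Phi L c (e.symm π) = π := e.apply_symm_apply π
    rw [this]
    exact hπ
  · exact e.symm.injective.injOn

open Classical in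
lemma chain_le (hL : Good L) (a : ℕ) : ∀ c : ℕ, c ≤ n →
    (Finset.univ.filter (H L a 0)).card ≤ (Finset.univ.filter (H L a c)).card := by
  intro c
  induction c with
  | zero => intro _; exact le_rfl
  | succ c ih =>
    intro hc
    exact (ih (by omega)).trans (step_le hL a ⟨c, by omega⟩)

open Classical in
lemma chain_eq (hL : Good L) {a : ℕ} (hE : Tight L a) : ∀ c : ℕ, c ≤ n →
    (Finset.univ.filter (H L a 0)).card = (Finset.univ.filter (H L a c)).card := by
  intro c
  induction c with
  | zero => intro _; rfl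
  | succ c ih =>
    intro hc
    exact (ih (by omega)).trans (step_eq hL hE ⟨c, by omega⟩)

lemma H_zero (a : ℕ) (π : Perm (Fin n)) : H L a 0 π ↔
    ∀ i i' : Fin n, (i : ℕ) + a < i' → π i' < π i → ¬ L π i' (π i) := by
  constructor
  · intro h i i' hii hlt
    exact h.2 (π i) (Nat.zero_le _) i i' hii rfl hlt
  · intro h
    refine ⟨fun v hv => absurd hv (Nat.not_lt_zero _), ?_⟩
    intro v _ i i' hii hv hlt
    subst hv
    exact h i i' hii hlt

lemma H_top (a : ℕ) (π : Perm (Fin n)) : H L a n π ↔
    ∀ i i' : Fin n, (i : ℕ) + a < i' → π i < π i' → ¬ L π i' (π i') := by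
  constructor
  · intro h i i' hii hlt
    exact h.1 (π i') (π i').2 i i' hii rfl hlt
  · intro h
    refine ⟨?_, fun v hv => absurd v.2 (not_lt.2 hv)⟩
    intro v _ i i' hii hv hlt
    subst hv
    exact h i i' hii hlt

/-- the inequality -/
theorem main_le (hL : Good L) (a : ℕ) :
    {π : Perm (Fin n) | ∀ i i' : Fin n, (i : ℕ) + a < i' → π i' < π i → ¬ L π i' (π i)}.ncard ≤
      {π : Perm (Fin n) | ∀ i i' : Fin n, (i : ℕ) + a < i' → π i < π i' →
        ¬ L π i' (π i')}.ncard := by
  classical
  have h := chain_le hL a n le_rfl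
  have e1 : {π : Perm (Fin n) | ∀ i i' : Fin n, (i : ℕ) + a < i' → π i' < π i → ¬ L π i' (π i)} =
      ((Finset.univ.filter (H L a 0) : Finset (Perm (Fin n))) : Set (Perm (Fin n))) := by
    ext π
    simp [H_zero]
  have e2 : {π : Perm (Fin n) | ∀ i i' : Fin n, (i : ℕ) + a < i' → π i < π i' →
      ¬ L π i' (π i')} =
      ((Finset.univ.filter (H L a n) : Finset (Perm (Fin n))) : Set (Perm (Fin n))) := by
    ext π
    simp [H_top]
  rw [e1, e2, Set.ncard_coe_finset, Set.ncard_coe_finset]
  exact h

/-- the equality -/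
theorem main_eq (hL : Good L) {a : ℕ} (hE : Tight L a) :
    {π : Perm (Fin n) | ∀ i i' : Fin n, (i : ℕ) + a < i' → π i' < π i → ¬ L π i' (π i)}.ncard =
      {π : Perm (Fin n) | ∀ i i' : Fin n, (i : ℕ) + a < i' → π i < π i' →
        ¬ L π i' (π i')}.ncard := by
  classical
  have h := chain_eq hL hE n le_rfl
  have e1 : {π : Perm (Fin n) | ∀ i i' : Fin n, (i : ℕ) + a < i' → π i' < π i → ¬ L π i' (π i)} =
      ((Finset.univ.filter (H L a 0) : Finset (Perm (Fin n))) : Set (Perm (Fin n))) := by
    ext π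
    simp [H_zero]
  have e2 : {π : Perm (Fin n) | ∀ i i' : Fin n, (i : ℕ) + a < i' → π i < π i' →
      ¬ L π i' (π i')} =
      ((Finset.univ.filter (H L a n) : Finset (Perm (Fin n))) : Set (Perm (Fin n))) := by
    ext π
    simp [H_top]
  rw [e1, e2, Set.ncard_coe_finset, Set.ncard_coe_finset]
  exact h

end

end Pool.Agent.Q293.DP
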