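import Pool.Agent.Q293.DP.Core

/-!
# Distant patterns `12 ⊕ τ` and `21 ⊕ τ`
-/

set_option autoImplicit false

namespace Pool.Agent.Q293.DP

open Equiv

/-- `π` contains the pattern with letters `P 0, P 1, ..., P m`; between the letters number `x` and
`x + 1` there have to be at least `G x` entries of `π`. -/
def Contains {m n : ℕ} (P : Fin (m + 1) → ℕ) (G : Fin m → ℕ) (π : Perm (Fin n)) : Prop :=
  ∃ t : Fin (m + 1) → Fin n, (∀ x : Fin m, (t x.castSucc : ℕ) + G x < t x.succ) ∧
    ∀ x y, P x < P y → π (t x) < π (t y)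

/-- the domination relation: an occurrence of `τ` starts more than `b` positions to the right of
`i`, with values above `j` -/
def Dom {k n : ℕ} (τ : Fin (k + 1) → ℕ) (g : Fin k → ℕ) (b : ℕ) (π : Perm (Fin n))
    (i j : Fin n) : Prop :=
  ∃ t : Fin (k + 1) → Fin n, (i : ℕ) + b < t 0 ∧ (∀ x : Fin k, (t x.castSucc : ℕ) + g x < t x.succ) ∧
    (∀ x y, τ x < τ y → π (t x) < π (t y)) ∧ ∀ x, j < π (t x)

variable {k n : ℕ} {τ : Fin (k + 1) → ℕ} {g : Fin k → ℕ} {b : ℕ}

lemma t_mono {t : Fin (k + 1) → Fin n} (h : ∀ x : Fin k, (t x.castSucc : ℕ) + g x < t x.succ) :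
    ∀ x, t 0 ≤ t x := by
  intro x
  have : StrictMono t := by
    rw [Fin.strictMono_iff_lt_succ]
    intro x
    have := h x
    exact Fin.lt_def.2 (by omega)
  exact this.monotone (Fin.zero_le x)

lemma exists_outside (π : Perm (Fin n)) (j : Fin n) : ∀ (N : ℕ) (i : Fin n)
    (t : Fin (k + 1) → Fin n), n - (t 0 : ℕ) ≤ N → (i : ℕ) + b < t 0 →
    (∀ x : Fin k, (t x.castSucc : ℕ) + g x < t x.succ) →
    (∀ x y, τ x < τ y → π (t x) < π (t y)) → (∀ x, j < π (t x)) →
    ∃ t : Fin (k + 1) → Fin n, (i : ℕ) + b < t 0 ∧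
      (∀ x : Fin k, (t x.castSucc : ℕ) + g x < t x.succ) ∧
      (∀ x y, τ x < τ y → π (t x) < π (t y)) ∧ (∀ x, j < π (t x)) ∧
      ∀ x, ¬ Dom τ g b π (t x) (π (t x)) := by
  intro N
  induction N with
  | zero =>
    intro i t hN
    have := (t 0).2
    omega
  | succ N ih =>
    intro i t hN h1 h2 h3 h4
    by_cases h : ∀ x, ¬ Dom τ g b π (t x) (π (t x))
    · exact ⟨t, h1, h2, h3, h4, h⟩
    · push Not at h
      obtain ⟨x, t', k1, k2, k3, k4⟩ := h
      have hx : (t 0 : ℕ) ≤ t x := Fin.le_def.1 (t_mono h2 x)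
      have := (t' 0).2
      exact ih i t' (by omega) (by omega) k2 k3 (fun y => (h4 x).trans (k4 y))

lemma Dom.outside {π : Perm (Fin n)} {i j : Fin n} (h : Dom τ g b π i j) :
    ∃ t : Fin (k + 1) → Fin n, (i : ℕ) + b < t 0 ∧
      (∀ x : Fin k, (t x.castSucc : ℕ) + g x < t x.succ) ∧
      (∀ x y, τ x < τ y → π (t x) < π (t y)) ∧ (∀ x, j < π (t x)) ∧
      ∀ x, ¬ Dom τ g b π (t x) (π (t x)) := by
  obtain ⟨t, h1, h2, h3, h4⟩ := h
  exact exists_outside π j _ i t le_rfl h1 h2 h3 h4

lemma Dom.down {π : Perm (Fin n)} {i j i' j' : Fin n} (h : Dom τ g b π i j) (hi : i' ≤ i)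
    (hj : j' ≤ j) : Dom τ g b π i' j' := by
  obtain ⟨t, h1, h2, h3, h4⟩ := h
  have := Fin.le_def.1 hi
  exact ⟨t, by omega, h2, h3, fun x => hj.trans_lt (h4 x)⟩

lemma good_dom (n : ℕ) (τ : Fin (k + 1) → ℕ) (g : Fin k → ℕ) (b : ℕ) :
    Good (n := n) (Dom τ g b) where
  down π i j i' j' h hi hj := h.down hi hj
  inv π π' h i j := by
    constructor
    · rintro ⟨t', h1, h2, h3, h4⟩
      by_cases hx : ∃ x, Dom τ g b π (t' x) (π' (t' x))
      · obtain ⟨x, t, k1, k2, k3, k4⟩ := hx
        have hx0 : (t' 0 : ℕ) ≤ t' x := Fin.le_def.1 (t_mono h2 x)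
        exact ⟨t, by omega, k2, k3, fun y => (h4 x).trans (k4 y)⟩
      · push Not at hx
        have he : ∀ x, π' (t' x) = π (t' x) := by
          intro x
          by_contra hne
          exact hx x (h _ hne).2
        refine ⟨t', h1, h2, fun x y hxy => ?_, fun x => ?_⟩
        · rw [← he, ← he]
          exact h3 x y hxy
        · rw [← he]
          exact h4 x
    · intro hd
      obtain ⟨t, h1, h2, h3, h4, h5⟩ := hd.outside
      have he : ∀ x, π' (t x) = π (t x) := by
        intro x
        by_contra hne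
        exact h5 x (h _ hne).1
      refine ⟨t, h1, h2, fun x y hxy => ?_, fun x => ?_⟩
      · rw [he, he]
        exact h3 x y hxy
      · rw [he]
        exact h4 x

lemma tight_zero : Tight (n := n) (Dom τ g b) 0 := by
  intro π i i' h1 h2
  have := Fin.lt_def.1 h1
  omega

lemma tight_one : Tight (n := n) (Dom τ g 0) 1 := by
  intro π i i' h1 h2 h3 j hj
  have e1 := Fin.lt_def.1 h1
  obtain ⟨t, k1, k2, k3, k4⟩ := hj
  by_cases h : (i' : ℕ) + 0 < t 0
  · exact ⟨t, h, k2, k3, k4⟩
  · have : t 0 = i' := Fin.ext (by omega)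
    refine Dom.down h3 le_rfl ?_
    rw [← this]
    exact (k4 0).le

/-- the pattern `12 ⊕ τ` -/
def up (τ : Fin (k + 1) → ℕ) : Fin (k + 2 + 1) → ℕ :=
  Fin.cons 0 (Fin.cons 1 (fun x => τ x + 2))

/-- the pattern `21 ⊕ τ` -/
def dn (τ : Fin (k + 1) → ℕ) : Fin (k + 2 + 1) → ℕ :=
  Fin.cons 1 (Fin.cons 0 (fun x => τ x + 2))

/-- the gaps -/
def gaps (a b : ℕ) (g : Fin k → ℕ) : Fin (k + 2) → ℕ := Fin.cons a (Fin.cons b g)

lemma contains_up {a : ℕ} {π : Perm (Fin n)} : Contains (up τ) (gaps a b g) π ↔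
    ∃ i i' : Fin n, (i : ℕ) + a < i' ∧ π i < π i' ∧ Dom τ g b π i' (π i') := by
  constructor
  · rintro ⟨t, h1, h2⟩
    refine ⟨t 0, t 1, ?_, ?_, fun x => t x.succ.succ, ?_, ?_, ?_, ?_⟩
    · exact h1 0
    · exact h2 0 1 (by simp [up])
    · exact h1 1
    · intro x
      exact h1 x.succ.succ
    · intro x y hxy
      apply h2
      simp only [up, Fin.cons_succ]
      omega
    · intro x
      apply h2
      rw [show (1 : Fin (k + 2 + 1)) = Fin.succ 0 from rfl]
      simp only [up, Fin.cons_succ, Fin.cons_zero]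
      omega
  · rintro ⟨i, i', h1, h2, t, k1, k2, k3, k4⟩
    refine ⟨Fin.cons i (Fin.cons i' t), ?_, ?_⟩
    · intro x
      refine Fin.cases ?_ (fun x => ?_) x
      · exact h1
      · refine Fin.cases ?_ (fun x => ?_) x
        · exact k1
        · exact k2 x
    · intro x y
      refine Fin.cases ?_ (fun x => ?_) x
      · refine Fin.cases ?_ (fun y => ?_) y
        · intro h; exact absurd h (lt_irrefl _)
        · refine Fin.cases ?_ (fun y => ?_) y
          · intro _; exact h2
          · intro _; exact h2.trans (k4 y)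
      · refine Fin.cases ?_ (fun x => ?_) x
        · refine Fin.cases ?_ (fun y => ?_) y
          · intro h
            simp [up] at h
          · refine Fin.cases ?_ (fun y => ?_) y
            · intro h; exact absurd h (lt_irrefl _)
            · intro _; exact k4 y
        · refine Fin.cases ?_ (fun y => ?_) y
          · intro h
            simp [up] at h
          · refine Fin.cases ?_ (fun y => ?_) y
            · intro h
              simp only [up, Fin.cons_succ, Fin.cons_zero] at h
              omega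
            · intro h
              simp only [up, Fin.cons_succ] at h
              exact k3 x y (by omega)

lemma contains_dn {a : ℕ} {π : Perm (Fin n)} : Contains (dn τ) (gaps a b g) π ↔
    ∃ i i' : Fin n, (i : ℕ) + a < i' ∧ π i' < π i ∧ Dom τ g b π i' (π i) := by
  constructor
  · rintro ⟨t, h1, h2⟩
    refine ⟨t 0, t 1, ?_, ?_, fun x => t x.succ.succ, ?_, ?_, ?_, ?_⟩
    · exact h1 0
    · exact h2 1 0 (by simp [dn])
    · exact h1 1
    · intro x
      exact h1 x.succ.succ
    · intro x y hxy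
      apply h2
      simp only [dn, Fin.cons_succ]
      omega
    · intro x
      apply h2
      simp only [dn, Fin.cons_succ, Fin.cons_zero]
      omega
  · rintro ⟨i, i', h1, h2, t, k1, k2, k3, k4⟩
    refine ⟨Fin.cons i (Fin.cons i' t), ?_, ?_⟩
    · intro x
      refine Fin.cases ?_ (fun x => ?_) x
      · exact h1
      · refine Fin.cases ?_ (fun x => ?_) x
        · exact k1
        · exact k2 x
    · intro x y
      refine Fin.cases ?_ (fun x => ?_) x
      · refine Fin.cases ?_ (fun y => ?_) y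
        · intro h; exact absurd h (lt_irrefl _)
        · refine Fin.cases ?_ (fun y => ?_) y
          · intro h; simp [dn] at h
          · intro _; exact k4 y
      · refine Fin.cases ?_ (fun x => ?_) x
        · refine Fin.cases ?_ (fun y => ?_) y
          · intro _; exact h2
          · refine Fin.cases ?_ (fun y => ?_) y
            · intro h; exact absurd h (lt_irrefl _)
            · intro _; exact h2.trans (k4 y)
        · refine Fin.cases ?_ (fun y => ?_) y
          · intro h
            simp only [dn, Fin.cons_succ, Fin.cons_zero] at h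
            omega
          · refine Fin.cases ?_ (fun y => ?_) y
            · intro h
              simp only [dn, Fin.cons_succ, Fin.cons_zero] at h
              omega
            · intro h
              simp only [dn, Fin.cons_succ] at h
              exact k3 x y (by omega)

/-- number of permutations avoiding a distant pattern -/
noncomputable def av {m : ℕ} (n : ℕ) (P : Fin (m + 1) → ℕ) (G : Fin m → ℕ) : ℕ :=
  {π : Perm (Fin n) | ¬ Contains P G π}.ncard

theorem av_le (n : ℕ) (τ : Fin (k + 1) → ℕ) (g : Fin k → ℕ) (a b : ℕ) :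
    av n (dn τ) (gaps a b g) ≤ av n (up τ) (gaps a b g) := by
  have h := main_le (good_dom n τ g b) a
  have e1 : {π : Perm (Fin n) | ¬ Contains (dn τ) (gaps a b g) π} =
      {π : Perm (Fin n) | ∀ i i' : Fin n, (i : ℕ) + a < i' → π i' < π i →
        ¬ Dom τ g b π i' (π i)} := by
    ext π
    simp only [Set.mem_ofPred_eq, contains_dn]
    push Not
    rfl
  have e2 : {π : Perm (Fin n) | ¬ Contains (up τ) (gaps a b g) π} =
      {π : Perm (Fin n) | ∀ i i' : Fin n, (i : ℕ) + a < i' → π i < π i' →
        ¬ Dom τ g b π i' (π i')} := by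
    ext π
    simp only [Set.mem_ofPred_eq, contains_up]
    push Not
    rfl
  rw [av, av, e1, e2]
  exact h

theorem av_eq (n : ℕ) (τ : Fin (k + 1) → ℕ) (g : Fin k → ℕ) (a b : ℕ)
    (hab : a = 0 ∨ a = 1 ∧ b = 0) :
    av n (dn τ) (gaps a b g) = av n (up τ) (gaps a b g) := by
  have hT : Tight (n := n) (Dom τ g b) a := by
    rcases hab with rfl | ⟨rfl, rfl⟩
    · exact tight_zero
    · exact tight_one
  have h := main_eq (good_dom n τ g b) hT
  have e1 : {π : Perm (Fin n) | ¬ Contains (dn τ) (gaps a b g) π} =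
      {π : Perm (Fin n) | ∀ i i' : Fin n, (i : ℕ) + a < i' → π i' < π i →
        ¬ Dom τ g b π i' (π i)} := by
    ext π
    simp only [Set.mem_ofPred_eq, contains_dn]
    push Not
    rfl
  have e2 : {π : Perm (Fin n) | ¬ Contains (up τ) (gaps a b g) π} =
      {π : Perm (Fin n) | ∀ i i' : Fin n, (i : ℕ) + a < i' → π i < π i' →
        ¬ Dom τ g b π i' (π i')} := by
    ext π
    simp only [Set.mem_ofPred_eq, contains_up]
    push Not
    rfl
  rw [av, av, e1, e2]
  exact h

/-- reverse-complement -/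
lemma contains_rc {m n : ℕ} {P Q : Fin (m + 1) → ℕ} {G K : Fin m → ℕ} {π : Perm (Fin n)}
    (hQ : ∀ x y, Q x < Q y → P y.rev < P x.rev) (hK : ∀ x, K x ≤ G x.rev)
    (h : Contains P G π) : Contains Q K (Fin.revPerm * π * Fin.revPerm) := by
  obtain ⟨t, h1, h2⟩ := h
  refine ⟨fun x => (t x.rev).rev, ?_, ?_⟩
  · intro x
    have e1 : (x.castSucc).rev = (x.rev).succ := Fin.rev_castSucc x
    have e2 : (x.succ).rev = (x.rev).castSucc := Fin.rev_succ x
    show (((t (x.castSucc).rev).rev : Fin n) : ℕ) + K x < ((t (x.succ).rev).rev : Fin n)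
    rw [e1, e2]
    have := h1 x.rev
    have h3 := hK x
    rw [Fin.val_rev, Fin.val_rev]
    have h4 := (t (x.rev).succ).2
    have h5 := (t (x.rev).castSucc).2
    omega
  · intro x y hxy
    have := h2 _ _ (hQ x y hxy)
    simp only [Perm.mul_apply, Fin.revPerm_apply, Fin.rev_rev]
    exact Fin.rev_lt_rev.2 this

theorem av_rc {m : ℕ} (n : ℕ) {P Q : Fin (m + 1) → ℕ} {G K : Fin m → ℕ}
    (hQ : ∀ x y, Q x < Q y ↔ P y.rev < P x.rev) (hK : ∀ x, K x = G x.rev) :
    av n P G = av n Q K := by
  have hinv : ∀ π : Perm (Fin n),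
      Fin.revPerm * (Fin.revPerm * π * Fin.revPerm) * Fin.revPerm = π := by
    intro π
    ext x
    simp
  have key : ∀ π : Perm (Fin n),
      Contains Q K (Fin.revPerm * π * Fin.revPerm) ↔ Contains P G π := by
    intro π
    constructor
    · intro h
      have := contains_rc (P := Q) (Q := P) (G := K) (K := G) (fun x y hxy => by
        rw [hQ, Fin.rev_rev, Fin.rev_rev]; exact hxy) (fun x => by
        rw [hK, Fin.rev_rev]) h
      rwa [hinv] at this
    · exact contains_rc (fun x y hxy => (hQ x y).1 hxy) (fun x => (hK x).le)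
  let e : Perm (Fin n) ≃ Perm (Fin n) :=
    { toFun := fun π => Fin.revPerm * π * Fin.revPerm
      invFun := fun π => Fin.revPerm * π * Fin.revPerm
      left_inv := hinv
      right_inv := hinv }
  unfold av
  have : {π : Perm (Fin n) | ¬ Contains Q K π} = e '' {π : Perm (Fin n) | ¬ Contains P G π} := by
    ext π
    constructor
    · intro h
      refine ⟨e π, ?_, hinv π⟩
      intro hc
      apply h
      have := (key (e π)).2 hc
      have h2 : Fin.revPerm * (e π) * Fin.revPerm = π := hinv π
      rwa [h2] at this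
    · rintro ⟨ρ, hρ, rfl⟩
      intro hc
      exact hρ ((key ρ).1 hc)
  rw [this, Set.ncard_image_of_injective _ e.injective]

/-- an order-isomorphic pattern -/
lemma av_congr {m : ℕ} (n : ℕ) {P Q : Fin (m + 1) → ℕ} {G : Fin m → ℕ}
    (h : ∀ x y, P x < P y ↔ Q x < Q y) : av n P G = av n Q G := by
  unfold av Contains
  simp only [h]

end Pool.Agent.Q293.DP
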